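import Mathlib
import Pool.Agent.R784.Free

/-!
# A free group of piecewise isometries acting freely on a bounded subset of the hyperbolic plane

There is a bounded set `X` with nonempty interior in the hyperbolic plane, and there are two
independent piecewise isometries `φ`, `ψ` of `X` such that the group generated by `φ` and `ψ` acts on
`X` without nontrivial fixed points.

Construction. In the coordinates `(X₀, X₁, X₂)` of the hyperboloid model, `X` is the square
`0 ≤ X₁ ≤ 1`, `0 ≤ X₂ ≤ 1`. Let `T x` be the translation of length `x` along the geodesic `X₂ = 0`.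
For all `τ` in an open interval, each orbit of this one-parameter group that meets `X` does so in a
segment of length between `τ` and `2 τ`. So there is a piecewise isometry `φ` of `X` which moves the
points of `X` by the translations `T x`, `x = τ, r, r - τ, r - 2 τ`, where `r = (√2 - 1) τ`, without
periodic points: it is the rotation of a segment of length `τ` by `r`, with the remaining part of
the orbits inserted. Let `ψ` be the same for the perpendicular geodesic `X₁ = 0`. Alternating
products of the translations are analytic functions of `τ` that are not constantly `1` or `-1`, as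
is seen for `τ` tending to infinity. So for all but countably many `τ` they are nontrivial. Then
`φ` and `ψ` generate a free group that acts freely on `X` without a countable set `D`. Finally `D` is
absorbed with a piecewise isometry of `X` onto the complement of `D` in `X`.
-/

set_option autoImplicit false

open UpperHalfPlane
open scoped MatrixGroups

namespace Pool.Agent.Results.MP_e721cf_gt.FreeAction

open Pool.Agent.R784.PI

/-- `f` is a piecewise isometry of the subset `X` of the hyperbolic plane `ℍ`: the set `X` has a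
finite partition into pieces `P i`, and there are isometries `g i` of the hyperbolic plane such that
the bijection `f` of `X` agrees with `g i` on `P i`. -/
def IsPiecewiseIsometry (X : Set ℍ) (f : Equiv.Perm X) : Prop :=
  ∃ (n : ℕ) (P : Fin n → Set ℍ) (g : Fin n → ℍ ≃ᵢ ℍ),
    Pairwise (fun i j => Disjoint (P i) (P j)) ∧ ⋃ i, P i = X ∧
      ∀ (i : Fin n) (x : X), (x : ℍ) ∈ P i → ((f x : X) : ℍ) = g i x

theorem pw_of_finset {X : Set ℍ} (f : Equiv.Perm X) (F : Finset SL(2, ℝ))
    (h : ∀ x : X, ∃ g ∈ F, ((f x : X) : ℍ) = g • (x : ℍ)) : IsPiecewiseIsometry X f := by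
  classical
  let g : Fin F.card → SL(2, ℝ) := fun i => (F.equivFin.symm i : SL(2, ℝ))
  let P : Fin F.card → Set ℍ := fun i => {z | ∃ hz : z ∈ X, ((f ⟨z, hz⟩ : X) : ℍ) = g i • z ∧
    ∀ j, j < i → ((f ⟨z, hz⟩ : X) : ℍ) ≠ g j • z}
  refine ⟨F.card, P, fun i => IsometryEquiv.constSMul (g i), ?_, ?_, ?_⟩
  · intro i j hij
    rw [Set.disjoint_left]
    rintro z ⟨hz, h1, h2⟩ ⟨hz', h3, h4⟩
    rcases lt_or_gt_of_ne hij with h | h
    · exact h4 i h h1
    · exact h2 j h h3
  · ext z
    simp only [Set.mem_iUnion]
    constructor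
    · rintro ⟨i, hz, -⟩
      exact hz
    · intro hz
      have hne : {i : Fin F.card | ((f ⟨z, hz⟩ : X) : ℍ) = g i • z}.Nonempty := by
        obtain ⟨a, ha, hfa⟩ := h ⟨z, hz⟩
        refine ⟨F.equivFin ⟨a, ha⟩, ?_⟩
        show ((f ⟨z, hz⟩ : X) : ℍ) = (F.equivFin.symm (F.equivFin ⟨a, ha⟩) : SL(2, ℝ)) • z
        rw [Equiv.symm_apply_apply]
        exact hfa
      obtain ⟨i, hi, hmin⟩ := WellFounded.has_min (wellFounded_lt (α := Fin F.card)) _ hne
      exact ⟨i, hz, hi, fun j hj hj' => hmin j hj' hj⟩
  · rintro i x ⟨hz, h1, -⟩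
    exact h1

/-- There is a bounded subset `X` of the hyperbolic plane with nonempty interior that carries two
piecewise isometries `φ` and `ψ` which are independent (they freely generate a free group of rank
`2`) and such that the group generated by `φ` and `ψ` acts on `X` without nontrivial fixed points. -/
theorem result : ∃ X : Set ℍ, Bornology.IsBounded X ∧ (interior X).Nonempty ∧
    ∃ φ ψ : Equiv.Perm X, IsPiecewiseIsometry X φ ∧ IsPiecewiseIsometry X ψ ∧
      Function.Injective (FreeGroup.lift ![φ, ψ]) ∧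
      ∀ g ∈ Subgroup.closure {φ, ψ}, (∃ x : X, g x = x) → g = 1 := by
  classical
  refine ⟨X0, X0_bounded, X0_interior, ?_⟩
  obtain ⟨τ, hτ, hb⟩ := exists_good
  obtain ⟨τ', hτ', habs⟩ := exists_absorb (DD τ) (DD_countable τ)
  let D' : Set X0 := {z | (z : ℍ) ∈ DD τ}
  obtain ⟨e, he⟩ := absorb (ph false τ' hτ') D' fun n hn d hd => habs n hn d hd
  -- the restrictions
  let res : Bool → Equiv.Perm {z : X0 // z ∉ D'} := fun b =>
    (ph b τ hτ).subtypePerm fun z => not_congr (ph_mem_DD b hτ z)
  let f : Bool → Equiv.Perm X0 := fun b => e.trans ((res b).trans e.symm)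
  have hres : ∀ b z, ((res b z : {z : X0 // z ∉ D'}) : X0) = ph b τ hτ z := fun b z => rfl
  have hef : ∀ b z, ((e (f b z) : {z : X0 // z ∉ D'}) : X0) = ph b τ hτ (e z) := by
    intro b z
    show ((e (e.symm (res b (e z))) : {z : X0 // z ∉ D'}) : X0) = _
    rw [Equiv.apply_symm_apply, hres]
  -- pieces
  let E : Finset SL(2, ℝ) := insert 1 ((strip false τ' hτ').moves.image (Tr false))
  have hE : ∀ z : X0, ∃ g ∈ E, (((e z : {z : X0 // z ∉ D'}) : X0) : ℍ) = g • (z : ℍ) := by
    intro z
    rcases he z with h | h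
    · obtain ⟨x, hx, hcx⟩ := (strip false τ' hτ').c_move z
      refine ⟨Tr false x, Finset.mem_insert_of_mem (Finset.mem_image_of_mem _ hx), ?_⟩
      rw [h]
      exact hcx
    · exact ⟨1, Finset.mem_insert_self _ _, by rw [h, one_smul]⟩
  have hpw : ∀ b, IsPiecewiseIsometry X0 (f b) := by
    intro b
    let A : Finset SL(2, ℝ) := (strip b τ hτ).moves.image (Tr b)
    apply pw_of_finset (f b) ((E ×ˢ (A ×ˢ E)).image fun p => p.1⁻¹ * p.2.1 * p.2.2)
    intro z
    obtain ⟨g1, hg1, h1⟩ := hE z
    obtain ⟨x, hx, h2⟩ := (strip b τ hτ).c_move ((e z : {z : X0 // z ∉ D'}) : X0)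
    obtain ⟨g3, hg3, h3⟩ := hE (f b z)
    refine ⟨g3⁻¹ * Tr b x * g1, Finset.mem_image.2 ⟨(g3, Tr b x, g1), ?_, rfl⟩, ?_⟩
    · exact Finset.mem_product.2 ⟨hg3, Finset.mem_product.2 ⟨Finset.mem_image_of_mem _ hx, hg1⟩⟩
    · rw [mul_smul, mul_smul, ← h1, eq_inv_smul_iff, ← h3, hef]
      exact h2
  -- the action of words
  have hact : ∀ (w : FreeGroup (Fin 2)) (z : X0),
      ((e (FreeGroup.lift ![f false, f true] w z) : {z : X0 // z ∉ D'}) : X0) =
        Phi τ hτ w (e z) := by
    have hgen : ∀ (i : Fin 2) (z : X0),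
        ((e (FreeGroup.lift ![f false, f true] (FreeGroup.of i) z) : {z : X0 // z ∉ D'}) : X0) =
          Phi τ hτ (FreeGroup.of i) (e z) := by
      intro i z
      rw [FreeGroup.lift_apply_of, Phi, FreeGroup.lift_apply_of]
      fin_cases i
      · exact hef false z
      · exact hef true z
    intro w
    refine FreeGroup.induction_on w ?_ ?_ ?_ ?_
    · intro z; simp
    · exact fun i => hgen i
    · intro i _ z
      rw [map_inv, map_inv]
      have h := hgen i ((FreeGroup.lift ![f false, f true] (FreeGroup.of i))⁻¹ z)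
      rw [← Equiv.Perm.mul_apply, mul_inv_cancel, Equiv.Perm.one_apply] at h
      rw [h, ← Equiv.Perm.mul_apply, inv_mul_cancel, Equiv.Perm.one_apply]
    · intro v w h1 h2 z
      rw [map_mul, map_mul, Equiv.Perm.mul_apply, Equiv.Perm.mul_apply, h1, h2]
  have hfree : ∀ (w : FreeGroup (Fin 2)), w ≠ 1 → ∀ z : X0,
      FreeGroup.lift ![f false, f true] w z ≠ z := by
    intro w hw z hz
    have h := hact w z
    rw [hz] at h
    exact Phi_ne hτ hb hw (z := ((e z : {z : X0 // z ∉ D'}) : X0)) (e z).2 h.symm
  obtain ⟨z0, hz0⟩ := X0_interior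
  have hz0' : z0 ∈ X0 := interior_subset hz0
  refine ⟨f false, f true, hpw false, hpw true, ?_, ?_⟩
  · rw [injective_iff_map_eq_one]
    intro w hw
    by_contra hne
    exact hfree w hne ⟨z0, hz0'⟩ (by rw [hw]; rfl)
  · intro g hg hx
    have hrange : ({f false, f true} : Set (Equiv.Perm X0)) = Set.range ![f false, f true] :=
      (Matrix.range_cons_cons_empty _ _ _).symm
    rw [hrange, ← FreeGroup.range_lift_eq_closure] at hg
    obtain ⟨w, rfl⟩ := hg
    obtain ⟨x, hx⟩ := hx
    by_contra hne
    apply hfree w _ x hx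
    rintro rfl
    exact hne (map_one _)

end Pool.Agent.Results.MP_e721cf_gt.FreeAction
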